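import Pool.Agent.H55.GW.Targets3
import Pool.Agent.H55.GW.Basic

/-!
# Module BRR: few windows connect two rails
-/

set_option autoImplicit false

namespace Pool.Agent.H54.GW

open Pool.Agent.H55.GW

theorem brr (hGRP : T_GRP) (hULB : T_ULB) : T_BRR := by
  classical
  intro q hq φ hφ σ
  obtain ⟨Rb, hRb⟩ := hULB q hq φ hφ
  obtain ⟨Rg, hRg⟩ := hGRP φ hφ σ (Rb + 1)
  refine ⟨σ * σ * Rg, fun M c hM hrep hgood hok hσ => ?_⟩
  set I : Fin c.k × Fin c.k → Set ℕ := fun p => {i | 1 ≤ i ∧ i + 2 ≤ c.T ∧ p.1 ≠ p.2 ∧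
    ∃ x y, c.Prt i p.1 x ∧ c.Prt i p.2 y ∧ RIn c.F.G (c.Reg i) x y} with hI
  have hIfin : ∀ p, (I p).Finite := fun p =>
    (Set.finite_Iic c.T).subset fun i hi => by
      have := hi.2.1
      simp only [Set.mem_Iic]
      omega
  have hcov : {i | 1 ≤ i ∧ i + 2 ≤ c.T ∧ c.BadRR i} ⊆
      ⋃ p ∈ (Finset.univ : Finset (Fin c.k × Fin c.k)), I p := by
    rintro i ⟨h1, h2, a, b, x, y, hab, hx, hy, hr⟩
    simp only [Set.mem_iUnion]
    exact ⟨(a, b), Finset.mem_univ _, h1, h2, hab, x, y, hx, hy, hr⟩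
  have hbd : ∀ p, (I p).ncard ≤ Rg := by
    rintro ⟨a, b⟩
    by_contra hcon
    push Not at hcon
    have hne : a ≠ b := by
      have hne : (I (a, b)).Nonempty := by
        rw [← Set.ncard_pos (hIfin _)]
        omega
      obtain ⟨i, hi⟩ := hne
      exact hi.2.2.1
    have hch : ∀ i ∈ I (a, b), ∃ x y, c.Prt i a x ∧ c.Prt i b y ∧ RIn c.F.G (c.Reg i) x y :=
      fun i hi => hi.2.2.2
    choose! u u' hu using hch
    have hport : ∀ i, i + 2 ≤ c.T → ∀ (d : Fin c.k) (x : Vx), c.Prt i d x →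
        x ∈ c.F.inn ∧ x ∈ c.Tr d := by
      intro i hi d x hx
      rcases hx with rfl | rfl
      · exact ⟨⟨_, (hok.sV i (by omega) d).1, rfl⟩, (hok.sV i (by omega) d).2.2⟩
      · exact ⟨⟨_, (hok.sV (i + 1) (by omega) d).1, rfl⟩, (hok.sV (i + 1) (by omega) d).2.2⟩
    obtain ⟨ix, Gr, E, E', t, t', hdG, hall⟩ := hRg c hok (hgood c.m hok.pm).1 hσ (I (a, b)) u u'
      (fun i hi => ⟨hi.1, hi.2.1, Or.inl (hport i hi.2.1 a _ (hu i hi).1).1,
        Or.inl (hport i hi.2.1 b _ (hu i hi).2.1).1, (hu i hi).2.2⟩) hcon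
    obtain ⟨x₁, ⟨⟨a₁, ha₁E, ha₁B, rfl⟩, -⟩, y₁, -, ht₁⟩ := hok.tr a
    obtain ⟨x₂, ⟨⟨a₂, ha₂E, ha₂B, rfl⟩, -⟩, y₂, -, ht₂⟩ := hok.tr b
    have hs1 := (hok.sV 0 (Nat.zero_le _) a).2.2
    have hs2 := (hok.sV 0 (Nat.zero_le _) b).2.2
    have hm1 : Sum.inl a₁ ∈ c.Tr a := (ht₁ _ hs1).1.left_mem
    have hm2 : Sum.inl a₂ ∈ c.Tr b := (ht₂ _ hs2).1.left_mem
    have ha12 : a₁ ≠ a₂ := by
      rintro rfl
      exact Set.disjoint_left.1 (hok.dTr a b hne) hm1 hm2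
    have := hRb M c.F c.m hM hrep hgood hok.pm a₁ a₂ ha12 ha₁E ha₁B ha₂E ha₂B (c.Tr a) (c.Tr b)
      (hok.dTr a b hne) (fun x hx => (ht₁ x hx).1) (fun x hx => (ht₂ x hx).1) (Rb + 1) Gr E E' t t'
      hdG (fun j => by
        obtain ⟨hj1, hj2, hj3, hj4, hj5, hj6, hj7, hj8, hj9, hj10⟩ := hall j
        refine ⟨hj2, hj3, hj4, hj5, hj6, hj7, hj8, fun x hx => ⟨u (ix j), ?_, ?_⟩,
          fun x hx => ⟨u' (ix j), ?_, ?_⟩⟩
        · exact (hport _ hj1.2.1 a _ (hu _ hj1).1).2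
        · exact (hj9 x hx).mono_set (Set.subset_insert _ _)
        · exact (hport _ hj1.2.1 b _ (hu _ hj1).2.1).2
        · exact (hj10 x hx).mono_set (Set.subset_insert _ _))
    omega
  have hfin : (⋃ p ∈ (Finset.univ : Finset (Fin c.k × Fin c.k)), I p).Finite :=
    Set.Finite.biUnion (Finset.finite_toSet _) fun p _ => hIfin p
  calc {i | 1 ≤ i ∧ i + 2 ≤ c.T ∧ c.BadRR i}.ncard
      ≤ (⋃ p ∈ (Finset.univ : Finset (Fin c.k × Fin c.k)), I p).ncard :=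
        Set.ncard_le_ncard hcov hfin
    _ ≤ ∑ p : Fin c.k × Fin c.k, (I p).ncard := Finset.set_ncard_biUnion_le _ _
    _ ≤ ∑ _p : Fin c.k × Fin c.k, Rg := Finset.sum_le_sum fun p _ => hbd p
    _ = c.k * c.k * Rg := by
        rw [Finset.sum_const, Finset.card_univ, Fintype.card_prod, Fintype.card_fin, smul_eq_mul]
    _ ≤ σ * σ * Rg := by
        have : c.k ≤ σ := by omega
        exact Nat.mul_le_mul_right _ (Nat.mul_le_mul this this)

end Pool.Agent.H54.GW
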