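import Pool.Agent.H55.GW.Targets1

set_option autoImplicit false

namespace Pool.Agent.H54.GW

open Pool.Agent.H55.GW

theorem cli (hCLO : T_CLO) (hDUR : T_DUR) (hDUG : T_DUG) : T_CLI := by
  intro q hq M F m hG hR hm b b' hbb hb hb' T hT r hr
  have hbE : b ∈ F.E := by
    have := Frame.base_subset hb
    simpa using this
  have hb'E : b' ∈ F.E := by
    have := Frame.base_subset hb'
    simpa using this
  have hmd : F.dual.IsPM m := Frame.dual_isPM.2 hm
  have hb1 : b ∉ F.dual.base m := by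
    rw [Frame.dual_base]
    exact fun h => h.2 hb
  have hb2 : b' ∉ F.dual.base m := by
    rw [Frame.dual_base]
    exact fun h => h.2 hb'
  obtain ⟨y, T', hT', hr', hs⟩ := hCLO q hq M.dual F.dual m (hDUG q M hG) (hDUR F M hR) hmd b b'
    hbb hbE hb1 hb'E hb2 T (by
      intro t ht
      obtain ⟨h1, h2, h3, h4⟩ := hT t ht
      refine ⟨?_, (Frame.dual_rIn hm).2 h3, (Frame.dual_rIn hm).2 h4⟩
      rw [Frame.dual_base]
      exact ⟨by simpa using h1, h2⟩) r hr
  refine ⟨y, T', hT', hr', fun t ht => ?_⟩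
  exact (Frame.dual_sep hm).1 (hs t ht)

end Pool.Agent.H54.GW
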