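import Pool.Agent.H55.GW.Targets1

set_option autoImplicit false

namespace Pool.Agent.H54.GW

open Pool.Agent.H55.GW

theorem dual_Exc (F : Frame) (v : ℕ) : F.dual.Exc v ↔ F.Exc v := by
  unfold Frame.Exc
  constructor
  · rintro ⟨h1, h2⟩
    exact ⟨fun u => ⟨(h1 u).2, (h1 u).1⟩, h2⟩
  · rintro ⟨h1, h2⟩
    exact ⟨fun u => ⟨(h1 u).2, (h1 u).1⟩, h2⟩

theorem cof (hFAN : T_FAN) (hDUM : T_DUM) : T_COF := by
  intro M B R F m col hmin
  have hm : F.IsPM m := hmin.1.pm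
  have h1 := hFAN _ _ _ _ _ _ (hDUM M B R F m col hmin)
  intro q hq hqP
  rcases h1 q hq hqP with h2 | h2
  · exact Or.inl ((dual_Exc F q).1 h2)
  · refine Or.inr fun z hz => ?_
    obtain ⟨t, ht, hr⟩ := h2 z hz
    rw [Frame.dual_snk] at ht
    exact ⟨t, ht, (Frame.dual_rIn hm).1 hr⟩

end Pool.Agent.H54.GW
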