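import Pool.Agent.H55.GW.Targets1

set_option autoImplicit false

namespace Pool.Agent.H54.GW

open Pool.Agent.H55.GW

theorem exists_minFrame (M : Matroid ℕ) (h : ∃ F : Frame, F.Rep M) :
    ∃ F : Frame, F.Rep M ∧ ∀ F' : Frame, F'.Rep M →
      F.V.card < F'.V.card ∨ (F.V.card = F'.V.card ∧ F.edges ≤ F'.edges) := by
  classical
  obtain ⟨F₀, hF₀⟩ := h
  have h1 : ∃ n, ∃ F : Frame, F.Rep M ∧ F.V.card = n := ⟨_, F₀, hF₀, rfl⟩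
  obtain ⟨F₁, hF₁, hc₁⟩ := Nat.find_spec h1
  have h2 : ∃ k, ∃ F : Frame, F.Rep M ∧ F.V.card = Nat.find h1 ∧ F.edges = k :=
    ⟨_, F₁, hF₁, hc₁, rfl⟩
  obtain ⟨F, hF, hc, he⟩ := Nat.find_spec h2
  refine ⟨F, hF, fun F' hF' => ?_⟩
  have h3 : Nat.find h1 ≤ F'.V.card := Nat.find_min' h1 ⟨F', hF', rfl⟩
  rcases Nat.lt_or_ge (Nat.find h1) F'.V.card with h4 | h4
  · exact Or.inl (by rw [hc]; exact h4)
  · right
    have h5 : F'.V.card = Nat.find h1 := le_antisymm h4 h3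
    refine ⟨by rw [hc, h5], ?_⟩
    rw [he]
    exact Nat.find_min' h2 ⟨F', hF', h5, rfl⟩

theorem gf (hT1 : T_T1) (hFAN : T_FAN) (hCOF : T_COF) : T_GF := by
  intro q hq
  obtain ⟨φ, hφ, h1⟩ := hT1 q hq
  refine ⟨φ, hφ, fun M hG => ?_⟩
  obtain ⟨F, hF, hmin⟩ := exists_minFrame M hG.2.1
  refine ⟨F, hF, fun m hm => ?_⟩
  have hrig : MinRig M (F.base m) (fun _ _ _ => False) F m (fun _ => ∅) := by
    refine ⟨⟨hF, hm, rfl, by simp, fun _ _ _ h => h.elim⟩, ?_⟩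
    intro F' m' col' h'
    exact hmin F' h'.rep
  obtain ⟨h2, h3⟩ := h1 M _ _ F m _ hG hrig m hm
  exact ⟨h2, h3, hFAN _ _ _ _ _ _ hrig, hCOF _ _ _ _ _ _ hrig⟩

end Pool.Agent.H54.GW
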