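import Pool.Agent.H55.GW.Targets1

set_option autoImplicit false

namespace Pool.Agent.H54.GW

open Pool.Agent.H55.GW

theorem mem_E_of {F : Frame} {M : Matroid ℕ} (hR : F.Rep M) {e : ℕ} : e ∈ M.E ↔ e ∈ F.E := by
  rw [hR.1]
  simp

theorem delete_one (hMDEL : T_MDEL) (hMCON : T_MCON) (M : Matroid ℕ) (e : ℕ)
    (hF : ∃ F : Frame, F.Rep M) (he : e ∈ M.E) :
    (∃ F : Frame, F.Rep (M.delete {e})) ∧ (∃ F : Frame, F.Rep (M.contract {e})) := by
  obtain ⟨F, hR⟩ := hF
  by_cases h1 : ∀ B, M.IsBase B → e ∈ B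
  · have hco : {e} ⊆ M.coloops := by
      rw [Set.singleton_subset_iff]
      exact ((M.isColoop_tfae e).out 3 1).1 (fun B hB => h1 B hB)
    have heq := Matroid.contract_eq_delete_of_subset_coloops hco
    obtain ⟨B, hB⟩ := M.exists_isBase
    obtain ⟨m, hm, hbm⟩ := (hR.2 B).1 hB
    obtain ⟨F', hF', -⟩ := hMCON F M m e hR hm (by
      rw [hbm]
      exact h1 B hB)
    refine ⟨⟨F', ?_⟩, ⟨F', hF'⟩⟩
    rw [← heq]
    exact hF'
  · push Not at h1
    obtain ⟨B, hB, heB⟩ := h1
    obtain ⟨m, hm, hbm⟩ := (hR.2 B).1 hB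
    obtain ⟨F', hF', -⟩ := hMDEL F M m e hR hm ((mem_E_of hR).1 he) (by
      rw [hbm]
      exact heB)
    refine ⟨⟨F', hF'⟩, ?_⟩
    by_cases h2 : ∃ B', M.IsBase B' ∧ e ∈ B'
    · obtain ⟨B', hB', heB'⟩ := h2
      obtain ⟨m', hm', hbm'⟩ := (hR.2 B').1 hB'
      obtain ⟨F'', hF'', -⟩ := hMCON F M m' e hR hm' (by
        rw [hbm']
        exact heB')
      exact ⟨F'', hF''⟩
    · push Not at h2
      have hlo : {e} ⊆ M.loops := by
        rw [Set.singleton_subset_iff]
        exact (Matroid.isLoop_iff_forall_notMem_isBase he).2 h2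
      have heq := Matroid.contract_eq_delete_of_subset_loops hlo
      exact ⟨F', by rw [heq]; exact hF'⟩

theorem contract_many (hMDEL : T_MDEL) (hMCON : T_MCON) (C : Set ℕ) (hC : C.Finite) :
    ∀ M : Matroid ℕ, (∃ F : Frame, F.Rep M) → C ⊆ M.E → ∃ F : Frame, F.Rep (M.contract C) := by
  induction C, hC using Set.Finite.induction_on with
  | empty =>
    intro M hF _
    rw [Matroid.contract_empty]
    exact hF
  | @insert e C heC hC ih =>
    intro M hF hsub
    have h1 := (delete_one hMDEL hMCON M e hF (hsub (Set.mem_insert _ _))).2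
    have h2 := ih (M.contract {e}) h1 (by
      intro x hx
      rw [Matroid.contract_ground]
      refine ⟨hsub (Set.mem_insert_of_mem _ hx), ?_⟩
      rintro rfl
      exact heC hx)
    rw [Matroid.contract_contract, Set.singleton_union] at h2
    exact h2

theorem delete_many (hMDEL : T_MDEL) (hMCON : T_MCON) (C : Set ℕ) (hC : C.Finite) :
    ∀ M : Matroid ℕ, (∃ F : Frame, F.Rep M) → C ⊆ M.E → ∃ F : Frame, F.Rep (M.delete C) := by
  induction C, hC using Set.Finite.induction_on with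
  | empty =>
    intro M hF _
    rw [Matroid.delete_empty]
    exact hF
  | @insert e C heC hC ih =>
    intro M hF hsub
    have h1 := (delete_one hMDEL hMCON M e hF (hsub (Set.mem_insert _ _))).1
    have h2 := ih (M.delete {e}) h1 (by
      intro x hx
      rw [Matroid.delete_ground]
      refine ⟨hsub (Set.mem_insert_of_mem _ hx), ?_⟩
      rintro rfl
      exact heC hx)
    rw [Matroid.delete_delete, Set.singleton_union] at h2
    exact h2

theorem gmin (hMDEL : T_MDEL) (hMCON : T_MCON) : T_GMIN := by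
  intro q M N hG hN
  obtain ⟨hfin, hF, hL, hC⟩ := hG
  refine ⟨hfin.subset hN.subset, ?_, ?_, ?_⟩
  · obtain ⟨C, D, hCE, hDE, hdisj, rfl⟩ := hN.exists_eq_contract_delete_disjoint
    apply delete_many hMDEL hMCON D (hfin.subset hDE)
    · exact contract_many hMDEL hMCON C (hfin.subset hCE) M hF hCE
    · rw [Matroid.contract_ground]
      exact fun x hx => ⟨hDE hx, fun hxC => Set.disjoint_left.1 hdisj hxC hx⟩
  · rintro ⟨N', hN', h1, h2⟩
    exact hL ⟨N', hN'.trans hN, h1, h2⟩
  · rintro ⟨N', hN', h1, h2⟩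
    exact hC ⟨N', hN'.trans hN, h1, h2⟩

end Pool.Agent.H54.GW
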