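import Pool.Agent.H55.GW.Targets1

set_option autoImplicit false

namespace Pool.Agent.H54.GW

open Pool.Agent.H55.GW

variable {W : Type} {D : W → W → Prop} {X Y X' : Set W}

theorem cut_le {S : Finset W} (h : Sep D (S : Set W) X Y) : cut D X Y ≤ S.card :=
  Nat.sInf_le ⟨S, rfl, h⟩

theorem cut_spec (hX : X.Finite) : ∃ S : Finset W, S.card = cut D X Y ∧ Sep D (S : Set W) X Y := by
  have hne : {n | ∃ S : Finset W, S.card = n ∧ Sep D (S : Set W) X Y}.Nonempty := by
    refine ⟨_, hX.toFinset, rfl, ?_⟩
    intro x hx y _ hr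
    have := hr.left_mem
    simp [hx] at this
  exact Nat.sInf_mem hne

theorem cut_mono (hX' : X'.Finite) (h : X ⊆ X') : cut D X Y ≤ cut D X' Y := by
  obtain ⟨S, hS, hs⟩ := cut_spec (D := D) (Y := Y) hX'
  rw [← hS]
  exact cut_le (hs.mono subset_rfl h subset_rfl)

theorem lnk_le_cut (hX : X.Finite) {n : ℕ} (h : Lnk D n X Y) : n ≤ cut D X Y := by
  obtain ⟨S, hS, hs⟩ := cut_spec (D := D) (Y := Y) hX
  rw [← hS]
  exact h.le_card hs

theorem head (hSUBM : T_SUBM) : T_HEAD := by
  classical
  intro W D G K hG hK n y C hyC hL hS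
  set E : W → W → Prop := fun u v => D u v ∧ u ∈ G ∧ v ∈ G ∪ K with hE
  let Z : ℕ → Set W := fun i => {w | ∃ j : Fin n, i ≤ j.val ∧ w = y j}
  have hZfin : ∀ i, (Z i).Finite := fun i =>
    (Set.finite_range y).subset (by
      rintro w ⟨j, -, rfl⟩
      exact Set.mem_range_self j)
  have key : ∀ k, k ≤ n → k ≤ cut E (Z (n - k)) K := by
    intro k
    induction k with
    | zero => intro _; exact Nat.zero_le _
    | succ k ih =>
      intro hk
      have ih' := ih (by omega)
      set i := n - (k + 1) with hi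
      have hin : i < n := by omega
      have hi1 : n - k = i + 1 := by omega
      rw [hi1] at ih'
      let I : Fin n := ⟨i, hin⟩
      have hsub : Z (i + 1) ⊆ Z i := by
        rintro w ⟨j, hj, rfl⟩
        exact ⟨j, by omega, rfl⟩
      have hyI : y I ∈ Z i := ⟨I, le_refl _, rfl⟩
      have hX'fin : (Z (i + 1) ∪ (C I : Set W)).Finite := (hZfin _).union (C I).finite_toSet
      have h1 := hSUBM W E K (Z i) (Z (i + 1) ∪ (C I : Set W)) (hZfin i) hX'fin
      have h2 : (C I).card + 1 ≤ cut E (Z i ∪ (Z (i + 1) ∪ (C I : Set W))) K := by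
        have hf : (Z i ∪ (Z (i + 1) ∪ (C I : Set W))).Finite := (hZfin i).union hX'fin
        have hf2 : (insert (y I) (C I : Set W)).Finite := (C I).finite_toSet.insert _
        refine le_trans (lnk_le_cut hf2 (hL I)) (cut_mono hf ?_)
        intro w hw
        rcases hw with rfl | hw
        · exact Or.inl hyI
        · exact Or.inr (Or.inr hw)
      have h3 : k ≤ cut E (Z i ∩ (Z (i + 1) ∪ (C I : Set W))) K := by
        refine le_trans ih' (cut_mono ((hZfin i).inter_of_left _) ?_)
        intro w hw
        exact ⟨hsub hw, Or.inl hw⟩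
      have h4 : cut E (Z (i + 1) ∪ (C I : Set W)) K ≤ (C I).card := by
        apply cut_le
        rintro x (⟨j, hj, rfl⟩ | hx) z hz hr
        · exact hS I j (by
            show i < j.val
            omega) (y j) rfl z hz hr
        · exact hr.left_mem hx
      omega
  have h0 := key n le_rfl
  have h5 : cut E (Z (n - n)) K ≤ K.ncard := by
    have : Sep E ((hK.toFinset : Finset W) : Set W) (Z (n - n)) K := by
      intro x _ z hz hr
      have := hr.right_mem
      simp [hz] at this
    refine le_trans (cut_le this) ?_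
    rw [Set.ncard_eq_toFinset_card K hK]
  exact le_trans h0 h5

end Pool.Agent.H54.GW
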