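import Pool.Agent.H55.GW.Targets1

set_option autoImplicit false

namespace Pool.Agent.H54.GW

open Pool.Agent.H55.GW

theorem kud (hMEN : T_MEN) (hLB : T_LB) (hKUNG : T_KUNG) : T_KUD := by
  classical
  intro q b
  obtain ⟨ε, hε⟩ := hKUNG q b
  refine ⟨ε, ?_⟩
  intro M F m hG hR hm A hA Y hY hYb hsep
  have hbase : M.IsBase (F.base m) := (hR.2 _).2 ⟨m, hm, rfl⟩
  have hind : M.Indep (F.base m \ (Y : Set ℕ)) := hbase.indep.subset Set.sdiff_subset
  have hYsub : (Y : Set ℕ) ⊆ F.base m := fun y hy => hY y (by simpa using hy)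
  have hAd : ∀ a ∈ A, a ∉ F.base m \ (Y : Set ℕ) := fun a ha h => (hA a ha).2 h.1
  apply hε (M.contract (F.base m \ (Y : Set ℕ)))
  · exact hG.1.subset (by rw [Matroid.contract_ground]; exact Set.sdiff_subset)
  · rintro ⟨N', hN', h1, h2⟩
    refine hG.2.2.1 ⟨N', hN'.trans ?_, h1, h2⟩
    have := Matroid.contract_delete_isMinor M (F.base m \ (Y : Set ℕ)) ∅
    rwa [Matroid.delete_empty] at this
  · intro a ha
    have ha' : a ∈ A := by simpa using ha
    rw [Matroid.contract_ground]
    refine ⟨?_, hAd a ha'⟩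
    rw [hR.1]
    simpa using (hA a ha').1
  · intro a ha a' ha' hne
    have hmen := hMEN Vx (F.D m) F.uni F.uni_finite (fun u v h => Frame.D_uni h)
      {Sum.inl a, Sum.inl a'} (Sum.inl '' (Y : Set ℕ)) (by
        rintro x (rfl | rfl)
        · exact Or.inr ⟨a, (hA a ha).1, rfl⟩
        · exact Or.inr ⟨a', (hA a' ha').1, rfl⟩) (by
        rintro x ⟨y, hy, rfl⟩
        have := Frame.base_subset (hYsub hy)
        exact Or.inr ⟨y, by simpa using this, rfl⟩) 2 (by
        intro S hS
        by_contra hcon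
        exact hsep a ha a' ha' hne S (by omega) hS)
    obtain ⟨x, y, T, h1, h2⟩ := hmen
    obtain ⟨hxi, hyi⟩ := lnk_inj (fun i => (h1 i).2.2) h2
    have h3 : ∀ i, ∃ z, z ∈ (Y : Set ℕ) ∧ Sum.inl z = y i := fun i => by
      obtain ⟨z, hz, hz'⟩ := (h1 i).2.1
      exact ⟨z, hz, hz'⟩
    choose z hz hzy using h3
    have hzi : Function.Injective z := by
      intro i j hij
      apply hyi
      rw [← hzy i, ← hzy j, hij]
    have hnA : ({a, a'} : Set ℕ).ncard = 2 := Set.ncard_pair hne
    have hnZ : (Set.range z).ncard = 2 := by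
      rw [Set.ncard_eq_toFinset_card' (Set.range z), Set.toFinset_range,
        Finset.card_image_of_injective _ hzi]
      simp
    have h4 := (hLB F m hm {a, a'} (Set.range z) (by
      rintro w (rfl | rfl)
      · exact ⟨by simpa using (hA _ ha).1, (hA _ ha).2⟩
      · exact ⟨by simpa using (hA _ ha').1, (hA _ ha').2⟩) (by
      rintro w ⟨i, rfl⟩
      exact hYsub (hz i)) (by rw [hnA, hnZ])).2 (by
      rw [hnA]
      refine ⟨x, y, T, fun i => ⟨?_, ?_, (h1 i).2.2⟩, h2⟩
      · rcases (h1 i).1 with h | h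
        · exact ⟨a, Or.inl rfl, h.symm⟩
        · exact ⟨a', Or.inr rfl, h.symm⟩
      · exact ⟨z i, ⟨i, rfl⟩, hzy i⟩)
    obtain ⟨m', hm', hb'⟩ := h4
    have hbase' : M.IsBase ((F.base m \ Set.range z) ∪ {a, a'}) :=
      (hR.2 _).2 ⟨m', hm', hb'⟩
    rw [hind.contract_indep_iff]
    refine ⟨?_, hbase'.indep.subset ?_⟩
    · rw [Set.disjoint_left]
      rintro w (rfl | rfl)
      · exact hAd _ ha
      · exact hAd _ ha'
    · rintro w (hw | hw)
      · exact Or.inr hw
      · refine Or.inl ⟨hw.1, ?_⟩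
        rintro ⟨i, rfl⟩
        exact hw.2 (hz i)
  · rw [Matroid.eRk_le_iff]
    intro I hI hIi
    rw [hind.contract_indep_iff] at hIi
    obtain ⟨hdis, hII⟩ := hIi
    have h5 := hII.encard_le_eRank
    rw [← hbase.encard_eq_eRank, Set.encard_union_eq hdis] at h5
    have hfin : (F.base m).Finite := (F.E.finite_toSet).subset Frame.base_subset
    have h6 : (F.base m).encard = ((Y : Set ℕ)).encard + (F.base m \ (Y : Set ℕ)).encard := by
      rw [add_comm]
      exact (Set.encard_sdiff_add_encard_of_subset hYsub).symm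
    rw [h6] at h5
    have hfin2 : (F.base m \ (Y : Set ℕ)).encard ≠ ⊤ := by
      rw [Set.encard_ne_top_iff]
      exact hfin.subset Set.sdiff_subset
    have h7 : I.encard ≤ ((Y : Set ℕ)).encard :=
      (ENat.add_le_add_iff_right hfin2).1 h5
    refine h7.trans ?_
    rw [Set.encard_coe_eq_coe_finsetCard]
    exact_mod_cast hYb

end Pool.Agent.H54.GW
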