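import Pool.Agent.H55.GW.Targets1

set_option autoImplicit false

namespace Pool.Agent.H54.GW

open Pool.Agent.H55.GW

theorem rk_le (hLBC : T_LBC) (F : Frame) (M : Matroid ℕ) (m : ℕ → Vx) (hR : F.Rep M)
    (hm : F.IsPM m) (Z : Set ℕ) (hZ : Z ⊆ M.E) (S : Finset Vx)
    (hS : Sep (F.D m) (S : Set Vx) (Sum.inl '' (Z \ F.base m)) (Sum.inl '' (F.base m \ Z))) :
    rk M Z ≤ (F.base m ∩ Z).ncard + S.card := by
  classical
  obtain ⟨I, hI⟩ := M.exists_isBasis Z hZ
  obtain ⟨B', hB', hIB'⟩ := hI.indep.exists_isBase_superset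
  have hIeq : B' ∩ Z = I := by
    apply Set.Subset.antisymm
    · exact (hI.eq_of_subset_indep (hB'.indep.subset Set.inter_subset_left)
        (Set.subset_inter hIB' hI.subset) Set.inter_subset_right).symm.subset
    · exact Set.subset_inter hIB' hI.subset
  obtain ⟨m', hm', hb'⟩ := (hR.2 B').1 hB'
  obtain ⟨n, h1, h2, x, y, T, h3, h4⟩ := hLBC F m m' hm hm'
  rw [hb'] at h1 h2 h3
  set B := F.base m with hB
  have hBfin : B.Finite := (F.E.finite_toSet).subset Frame.base_subset
  have hB'fin : B'.Finite := by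
    rw [← hb']
    exact (F.E.finite_toSet).subset Frame.base_subset
  have hrk : rk M Z = (B' ∩ Z).ncard := by
    unfold rk
    rw [hI.eRk_eq_encard, hIeq]
    rfl
  obtain ⟨hxi, hyi⟩ := lnk_inj (fun i => (h3 i).2.2) h4
  have ha : ∀ i, ∃ a, a ∈ B' \ B ∧ Sum.inl a = x i := fun i => by
    obtain ⟨a, ha, ha'⟩ := (h3 i).1
    exact ⟨a, ha, ha'⟩
  have hb : ∀ i, ∃ a, a ∈ B \ B' ∧ Sum.inl a = y i := fun i => by
    obtain ⟨a, ha, ha'⟩ := (h3 i).2.1
    exact ⟨a, ha, ha'⟩
  choose a haB hax using ha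
  choose b hbB hby using hb
  have hai : Function.Injective a := fun i j hij => hxi (by rw [← hax i, ← hax j, hij])
  have hbi : Function.Injective b := fun i j hij => hyi (by rw [← hby i, ← hby j, hij])
  have hnr : ∀ c : Fin n → ℕ, Function.Injective c → (Set.range c).ncard = n := by
    intro c hc
    rw [Set.ncard_eq_toFinset_card' (Set.range c), Set.toFinset_range,
      Finset.card_image_of_injective _ hc]
    simp
  have har : Set.range a = B' \ B :=
    Set.eq_of_subset_of_ncard_le (by rintro w ⟨i, rfl⟩; exact haB i)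
      (by rw [hnr a hai, h1]) (hB'fin.subset Set.sdiff_subset)
  let P : Finset (Fin n) := Finset.univ.filter fun i => a i ∈ Z
  let Q : Finset (Fin n) := Finset.univ.filter fun i => b i ∈ Z
  have hP : ((B' \ B) ∩ Z).ncard ≤ P.card := by
    have : (B' \ B) ∩ Z ⊆ ((P.image a : Finset ℕ) : Set ℕ) := by
      rintro w ⟨hw, hwZ⟩
      rw [← har] at hw
      obtain ⟨i, rfl⟩ := hw
      simp only [Finset.coe_image, Set.mem_image, Finset.mem_coe]
      exact ⟨i, by simp [P, hwZ], rfl⟩
    refine (Set.ncard_le_ncard this (Finset.finite_toSet _)).trans ?_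
    rw [Set.ncard_coe_finset]
    exact Finset.card_image_le
  have hQ : Q.card ≤ ((B \ B') ∩ Z).ncard := by
    rw [← Finset.card_image_of_injective Q hbi, ← Set.ncard_coe_finset]
    apply Set.ncard_le_ncard
    · intro w hw
      simp only [Finset.coe_image, Set.mem_image, Finset.mem_coe] at hw
      obtain ⟨i, hi, rfl⟩ := hw
      exact ⟨hbB i, by simpa [Q] using hi⟩
    · exact (hBfin.subset Set.sdiff_subset).inter_of_left _
  have hPQ : (P \ Q).card ≤ S.card := by
    have h5 : ∀ i : Fin n, i ∈ P \ Q → ∃ z, z ∈ S ∧ z ∈ T i := by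
      intro i hi
      have hi1 : a i ∈ Z := by
        have := (Finset.mem_sdiff.1 hi).1
        simpa [P] using this
      have hi2 : b i ∉ Z := by
        have := (Finset.mem_sdiff.1 hi).2
        simpa [Q] using this
      obtain ⟨z, hz, hz'⟩ := hS.exists_mem (x := x i) (y := y i) ⟨a i, ⟨hi1, (haB i).2⟩, hax i⟩
        ⟨b i, ⟨(hbB i).1, hi2⟩, hby i⟩ (h3 i).2.2
      exact ⟨z, by simpa using hz, hz'⟩
    have h6 : ∀ i : Fin n, ∃ z, i ∈ P \ Q → z ∈ S ∧ z ∈ T i := by
      intro i
      by_cases hi : i ∈ P \ Q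
      · obtain ⟨z, hz⟩ := h5 i hi
        exact ⟨z, fun _ => hz⟩
      · exact ⟨x i, fun h => absurd h hi⟩
    choose f hf using h6
    apply Finset.card_le_card_of_injOn f (fun i hi => (hf i hi).1)
    intro i hi j hj hij
    by_contra hne
    exact Set.disjoint_left.1 (h4 i j hne) (hf i hi).2 (hij ▸ (hf j hj).2)
  have hPle : P.card ≤ Q.card + S.card := by
    have := Finset.card_le_card_sdiff_add_card (s := P) (t := Q)
    omega
  have e1 : (B' ∩ Z).ncard = (B ∩ B' ∩ Z).ncard + ((B' \ B) ∩ Z).ncard := by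
    rw [← Set.ncard_union_eq ?_ ?_ ?_]
    · congr 1
      ext w
      simp only [Set.mem_inter_iff, Set.mem_union, Set.mem_sdiff]
      tauto
    · rw [Set.disjoint_left]
      rintro w hw hw'
      exact hw'.1.2 hw.1.1
    · exact (hBfin.inter_of_left _).inter_of_left _
    · exact (hB'fin.subset Set.sdiff_subset).inter_of_left _
  have e2 : (B ∩ Z).ncard = (B ∩ B' ∩ Z).ncard + ((B \ B') ∩ Z).ncard := by
    rw [← Set.ncard_union_eq ?_ ?_ ?_]
    · congr 1
      ext w
      simp only [Set.mem_inter_iff, Set.mem_union, Set.mem_sdiff]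
      tauto
    · rw [Set.disjoint_left]
      rintro w hw hw'
      exact hw'.1.2 hw.1.2
    · exact (hBfin.inter_of_left _).inter_of_left _
    · exact (hBfin.subset Set.sdiff_subset).inter_of_left _
  rw [hrk, e1, e2]
  omega

theorem lamu (hLBC : T_LBC) : T_LAMU := by
  intro F M m hR hm Z hZ S₁ S₂ h1 h2
  have hbase : M.IsBase (F.base m) := (hR.2 _).2 ⟨m, hm, rfl⟩
  have hBE : F.base m ⊆ M.E := hbase.subset_ground
  have hBfin : (F.base m).Finite := (F.E.finite_toSet).subset Frame.base_subset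
  have h3 := rk_le hLBC F M m hR hm Z hZ S₁ h1
  have h4 := rk_le hLBC F M m hR hm (M.E \ Z) Set.sdiff_subset S₂ (by
    refine h2.mono subset_rfl subset_rfl (Set.image_mono ?_)
    intro w hw
    refine ⟨hw.1, ?_⟩
    by_contra hcon
    exact hw.2 ⟨hBE hw.1, hcon⟩)
  have h5 : rk M M.E = (F.base m).ncard := by
    unfold rk
    rw [M.eRk_ground, ← hbase.encard_eq_eRank]
    rfl
  have h6 : (F.base m ∩ Z).ncard + (F.base m ∩ (M.E \ Z)).ncard = (F.base m).ncard := by
    rw [← Set.ncard_union_eq ?_ ?_ ?_]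
    · congr 1
      ext w
      simp only [Set.mem_inter_iff, Set.mem_union, Set.mem_sdiff]
      constructor
      · rintro (h | h)
        · exact h.1
        · exact h.1
      · intro h
        by_cases hw : w ∈ Z
        · exact Or.inl ⟨h, hw⟩
        · exact Or.inr ⟨h, hBE h, hw⟩
    · rw [Set.disjoint_left]
      rintro w hw hw'
      exact hw'.2.2 hw.2
    · exact hBfin.inter_of_left _
    · exact hBfin.inter_of_left _
  unfold lam
  omega

end Pool.Agent.H54.GW
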