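import Pool.Agent.H55.GW.Targets1

set_option autoImplicit false

namespace Pool.Agent.H54.GW

open Pool.Agent.H55.GW

theorem t1 (hT1P : T_T1P) (hEXP : T_EXP) (hEXT : T_EXT) (hDUM : T_DUM) (hDUG : T_DUG) :
    T_T1 := by
  intro q hq
  obtain ⟨φ, hφ, h1⟩ := hT1P q hq
  refine ⟨fun b => 2 * (φ b + b) + 3 * b, ?_, ?_⟩
  · intro a b hab
    have := hφ hab
    show 2 * (φ a + a) + 3 * a ≤ 2 * (φ b + b) + 3 * b
    omega
  · have key : ∀ (M : Matroid ℕ) (B : Set ℕ) (R : Bool → ℕ → ℕ → Prop) (F : Frame)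
        (m : ℕ → Vx) (col : Bool → Set ℕ), Gam q M → MinRig M B R F m col →
        ∀ m', F.IsPM m' → F.Exits m' (fun b => 2 * (φ b + b) + 3 * b) := by
      intro M B R F m col hG hmin m' hm'
      have h2 := h1 M B R F m col hG hmin
      have h3 := hEXP F m m' φ hφ hmin.1.pm hm' h2
      exact hEXT F m' (fun b => φ b + b) hm' h3
    intro M B R F m col hG hmin m' hm'
    refine ⟨key M B R F m col hG hmin m' hm', ?_⟩
    have h4 := key _ _ _ _ _ _ (hDUG q M hG) (hDUM M B R F m col hmin) m' (Frame.dual_isPM.2 hm')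
    intro X hX S hS
    refine h4 X ?_ S ?_
    · intro x hx
      rw [Frame.dual_inn, Frame.dual_snk]
      exact hX x hx
    · rw [Frame.dual_snk]
      exact (Frame.dual_sep hm').2 hS

end Pool.Agent.H54.GW
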